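import Pool.Agent.H24.Cg1

set_option autoImplicit false

namespace Pool.Agent.Results.MP_4d0379_lc.Transfer
open Pool.Agent.H11.PT Pool.Agent.H24.Cg

theorem result :
    (∀ (n : ℕ) (G : SimpleGraph (Fin n)), chi G ≤ 3 * chiH G + 1 ∧ (0 < n → chiH G ≤ chi G)) ∧
    ∀ ε : ℝ, 0 < ε → ε ≤ 1 → GapHard chi (fun n => (n : ℝ) ^ (1 - ε / 2)) →
      GapHard chiH fun n => (n : ℝ) ^ (1 - ε) :=
  ⟨fun _ _ => ⟨main, main'⟩, fun _ => gap⟩

end Pool.Agent.Results.MP_4d0379_lc.Transfer
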